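import Pool.Agent.Helper82.CKM.Lagr2

/-!
# Capacitated k-median and Lagrangian multiplier preserving facility location

Up to constants, approximating capacitated `k`-median with arbitrary hard capacities is the same as
Lagrangian multiplier preserving approximation of capacitated facility location with equal opening
costs. The Lagrangian relaxation of the bound `k` has gap exactly two.
-/

namespace Pool.Agent.Results.MP_aaf371_lc.LagrangianEquivalence

open Pool.Agent.Helper82.CKM (Inst Sol)

/-- The optimum with at most `k` facilities is at most `C` times the value of the Lagrangian dual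
(in which the bound `k` is replaced by a price `l` for each open facility). -/
def LagrangianGap (C : ℝ) : Prop :=
  ∀ (I : Inst) (k : ℕ) (X : ℝ), (∀ s : Sol I, s.size ≤ k → X ≤ s.cost) →
    ∃ l : ℝ, 0 ≤ l ∧ ∀ s : Sol I, X ≤ C * (s.cost + l * ((s.size : ℝ) - k))

/-- `s` is a `ρ`-approximate solution of capacitated `k`-median. -/
def IsApprox {I : Inst} (ρ : ℝ) (k : ℕ) (s : Sol I) : Prop :=
  s.size ≤ k ∧ ∀ s' : Sol I, s'.size ≤ k → s.cost ≤ ρ * s'.cost

/-- `a` is a Lagrangian multiplier preserving `ρ`-approximate solution of the facility location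
problem with the hard capacities of `I` and with equal opening costs `l`. -/
def IsLMP {I : Inst} (ρ l : ℝ) (a : Sol I) : Prop :=
  ∀ s : Sol I, a.cost + ρ * (l * a.size) ≤ ρ * (s.cost + l * s.size)

/-- The opening costs `t (|D| + 1) d(j, i) / N` with `t = 0, ..., N`, `j` a client, `i` a facility
and `N = ⌈(|D| + 1) k / ε⌉`. -/
def prices (I : Inst) (k : ℕ) (ε : ℝ) : Set ℝ :=
  {l | ∃ (j : I.D) (i : I.F), ∃ t ≤ ⌈((Fintype.card I.D : ℝ) + 1) * k / ε⌉₊,
    l = t * (((Fintype.card I.D : ℝ) + 1) * I.d (Sum.inr j) (Sum.inl i) /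
      ⌈((Fintype.card I.D : ℝ) + 1) * k / ε⌉₊)}

/-- Capacitated `k`-median with arbitrary hard capacities.

1. The Lagrangian gap (a price for the open facilities in place of the bound `k`) is at most `C` if
   and only if `2 ≤ C`.
2. If `A l` is a Lagrangian multiplier preserving `ρ`-approximate solution of the facility location
   problem with the same capacities and equal opening costs `l`, for the polynomially many `l` in
   `prices I k ε`, then for some of these `l` and `l'` some of the facilities of `A l` and `A l'`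
   form a `2 ρ (1 + ε)`-approximate solution of capacitated `k`-median (if its optimum is positive).
3. Conversely, among `ρ`-approximate solutions for all `k` there is for every opening cost `l` a
   Lagrangian multiplier preserving `ρ`-approximate solution. -/
theorem result :
    (∀ C : ℝ, LagrangianGap C ↔ 2 ≤ C) ∧
    (∀ (I : Inst) (k : ℕ) (ρ ε : ℝ) (A : ℝ → Sol I), 0 < ρ → 0 < ε →
      (∃ s : Sol I, s.size ≤ k) → (∀ s : Sol I, s.size ≤ k → 0 < s.cost) →
      (∀ l ∈ prices I k ε, IsLMP ρ l (A l)) →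
      ∃ l ∈ prices I k ε, ∃ l' ∈ prices I k ε, ∃ s : Sol I,
        (∀ i ∈ s.S, i ∈ (A l).S ∨ i ∈ (A l').S) ∧ IsApprox (2 * ρ * (1 + ε)) k s) ∧
    (∀ (I : Inst) (ρ : ℝ) (B : ℕ → Sol I), 0 ≤ ρ →
      (∀ k, (∃ s : Sol I, s.size ≤ k) → IsApprox ρ k (B k)) →
      ∀ l : ℝ, 0 ≤ l → ∃ k ≤ Fintype.card I.F, IsLMP ρ l (B k)) := by
  classical
  refine ⟨Pool.Agent.Helper82.CKM.lagrangianGap_iff, ?_, ?_⟩
  · intro I k ρ ε A hρ hε hk hpos hA
    obtain ⟨j, i, t, ht, s, hS, hsk, hc⟩ := Pool.Agent.Helper82.CKM.lmp_grid hρ hε hk hpos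
      (A := A) (fun j i t ht => hA _ ⟨j, i, t, ht, rfl⟩) (Nat.le_ceil _)
    refine ⟨_, ⟨j, i, t, ht.le, rfl⟩, _, ⟨j, i, t + 1, ht, rfl⟩, s, ?_, hsk, hc⟩
    intro x hx
    have h1 := Finset.mem_union.1 (hS hx)
    rw [Nat.cast_add, Nat.cast_one]
    exact h1
  · intro I ρ B hρ hB l hl
    exact Pool.Agent.Helper82.CKM.lmp_converse hρ hB hl

end Pool.Agent.Results.MP_aaf371_lc.LagrangianEquivalence
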