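import Pool.Agent.Helper82.SOS.Levels

/-!
# The Lasserre hierarchy for capacitated k-median with uniform capacities

For every `ε ≥ 0` and every level `t ≤ 1 / (6 ε)` the relaxation has an unbounded gap, even
against solutions that violate both the capacities and the bound `k` by the factor `1 + ε`, open
facilities several times and split clients.
-/

namespace Pool.Agent.Results.MP_aaf371_lc.LasserreLevels

open Pool.Agent.Helper82.CKM

section

variable {F D A : Type} [Fintype F] [Fintype D] [CommRing A] [Algebra ℝ A]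

/-- The linear functional `E` on the algebra `A` (of polynomials in `y i`, `x i j`, with degree
`deg`) is a pseudo-expectation of degree `2 t` for the natural linear program
`∑_i x_ij = 1`, `x_ij ≤ y_i`, `∑_j x_ij ≤ U_i y_i`, `∑_i y_i ≤ k`, with 0/1 variables: a feasible
solution of level `t` of the Lasserre hierarchy. -/
structure IsPseudoExp (deg : A → ℕ) (y : F → A) (x : F → D → A) (U : F → ℕ) (k t : ℕ)
    (E : A → ℝ) : Prop where
  linear : IsLinearMap ℝ E
  one : E 1 = 1
  bool_y : ∀ i p, deg p + 2 ≤ 2 * t → E (p * (y i ^ 2 - y i)) = 0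
  bool_x : ∀ i j p, deg p + 2 ≤ 2 * t → E (p * (x i j ^ 2 - x i j)) = 0
  sq : ∀ p, 2 * deg p ≤ 2 * t → 0 ≤ E (p ^ 2)
  assign : ∀ j p, deg p + 1 ≤ 2 * t → E (p * (∑ i, x i j - 1)) = 0
  opened : ∀ i j p, 2 * deg p + 1 ≤ 2 * t → 0 ≤ E (p ^ 2 * (y i - x i j))
  capacity : ∀ i p, 2 * deg p + 1 ≤ 2 * t → 0 ≤ E (p ^ 2 * (U i * y i - ∑ j, x i j))
  cardinality : ∀ p, 2 * deg p + 1 ≤ 2 * t → 0 ≤ E (p ^ 2 * (k - ∑ i, y i))

end

/-- The polynomials in the variables `y i` (facilities) and `x i j` (facility, client). -/
abbrev Poly (I : Inst) : Type := MvPolynomial (I.F ⊕ I.F × I.D) ℝ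

/-- `E` is a feasible solution of level `t` of the Lasserre hierarchy for the natural linear
program of `I` with at most `k` open facilities. -/
def Lasserre (I : Inst) (k t : ℕ) (E : Poly I → ℝ) : Prop :=
  IsPseudoExp (D := I.D) MvPolynomial.totalDegree (fun i => MvPolynomial.X (Sum.inl i))
    (fun i j => MvPolynomial.X (Sum.inr (i, j))) I.U k t E

/-- The value of a pseudo-expectation: `∑_ij d(j, i) E(x_ij)`. -/
noncomputable def value (I : Inst) (E : Poly I → ℝ) : ℝ :=
  ∑ i, ∑ j, I.d (Sum.inr j) (Sum.inl i) * E (MvPolynomial.X (Sum.inr (i, j)))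

/-- A relaxed solution: facilities may be opened several times, clients may be split, and the
capacities may be exceeded by the factor `1 + ε`. -/
structure Relaxed (I : Inst) (ε : ℝ) where
  /-- how often a facility is opened -/
  m : I.F → ℕ
  /-- the part of a client that is assigned to a facility -/
  x : I.F → I.D → ℝ
  /-- the parts are nonnegative -/
  nonneg : ∀ i j, 0 ≤ x i j
  /-- the parts of a client have sum one -/
  total : ∀ j, ∑ i, x i j = 1
  /-- the capacities, with the factor `1 + ε` -/
  cap : ∀ i, ∑ j, x i j ≤ (1 + ε) * (m i * I.U i)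

/-- The number of openings. -/
def Relaxed.size {I : Inst} {ε : ℝ} (s : Relaxed I ε) : ℕ := ∑ i, s.m i

/-- The cost. -/
noncomputable def Relaxed.cost {I : Inst} {ε : ℝ} (s : Relaxed I ε) : ℝ :=
  ∑ i, ∑ j, I.d (Sum.inr j) (Sum.inl i) * s.x i j

theorem lasserre_of {I : Inst} {k t : ℕ} (e : Pool.Agent.Helper82.SOS.PseudoExp I k t) :
    Lasserre I k t e.E where
  linear := e.E.isLinear
  one := e.one
  bool_y i p hp := e.bool _ p hp
  bool_x i j p hp := e.bool _ p hp
  sq := e.sq
  assign := e.assign
  opened := e.opened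
  capacity i p hp := by
    have h := e.capacity i p hp
    rwa [map_natCast] at h
  cardinality p hp := by
    have h := e.cardinality p hp
    rwa [map_natCast] at h

/-- The Lasserre (sums of squares) hierarchy for capacitated `k`-median with uniform capacities.

1. It is a relaxation: every exact solution gives a pseudo-expectation of the same value.
2. For every `t ≥ 1`, every `ε` with `0 ≤ ε ≤ 1 / (6 t)`, every `ρ` and all `k = h (6 t - 1)`,
   `h ≥ 1`, there is a finite metric instance with all capacities equal to `2 t` that has an exact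
   solution with `k` facilities, such that the level `t` relaxation (degree `2 t`) has a feasible
   solution of value `v > 0`, but every solution costs more than `ρ v`, even if capacities and
   `k` are exceeded by the factor `1 + ε`, facilities are opened several times and clients are
   split. -/
theorem result :
    (∀ (I : Inst) (k t : ℕ) (s : Sol I), s.size ≤ k →
      ∃ E, Lasserre I k t E ∧ value I E = s.cost) ∧
    ∀ (t h : ℕ) (ε ρ : ℝ), 1 ≤ t → 1 ≤ h → 0 ≤ ε → ε ≤ 1 / (6 * t) → ∃ I : Inst,
      (∀ x y, x ≠ y → 0 < I.d x y) ∧ (∀ i, I.U i = 2 * t) ∧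
      (∃ s : Sol I, s.size = h * (6 * t - 1)) ∧
      ∃ E, Lasserre I (h * (6 * t - 1)) t E ∧ 0 < value I E ∧
        ∀ s : Relaxed I ε, (s.size : ℝ) ≤ (1 + ε) * (h * (6 * t - 1)) →
          ρ * value I E < s.cost := by
  refine ⟨fun I k t s hs => ?_, fun t h ε ρ ht hh h0 h1 => ?_⟩
  · obtain ⟨e, he⟩ := Pool.Agent.Helper82.SOS.GapMain.main.1 I k t s hs
    exact ⟨e.E, lasserre_of e, he⟩
  · obtain ⟨I, a, b, c, e, he, f⟩ := Pool.Agent.Helper82.SOS.levels t h ε ρ ht hh h0 h1
    exact ⟨I, a, b, c, e.E, lasserre_of e, he,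
      fun s hs => f s.m s.x s.nonneg s.total s.cap hs⟩

end Pool.Agent.Results.MP_aaf371_lc.LasserreLevels
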