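import Pool.Agent.LSC.Fin

set_option autoImplicit false

namespace Pool.Agent.Results.MP_aaf371_lc.SingleSwaps

open Pool.Agent.Helper82.CKM

open Classical in
/-- `s` is a local optimum for `K` facilities and single swaps, up to the factor `1 - η`: it opens
at most `K` facilities, no solution that opens only facilities of `s` is cheaper (its assignment is
optimal), and no solution with at most `K` facilities, at most one of them outside of `s`, is
cheaper by more than the factor `1 - η`. -/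
def LocOpt {I : Inst} (K : ℕ) (η : ℝ) (s : Sol I) : Prop :=
  s.size ≤ K ∧ (∀ t : Sol I, t.S ⊆ s.S → s.cost ≤ t.cost) ∧
    ∀ t : Sol I, t.size ≤ K → (t.S \ s.S).card ≤ 1 → (1 - η) * s.cost ≤ t.cost

/-- All distances are differences of positions on the real line. -/
def OnLine (I : Inst) : Prop := ∃ pos : I.F ⊕ I.D → ℝ, ∀ a b, I.d a b = |pos a - pos b|

/-- Local search with single swaps for capacitated `k`-median, exact capacities, every facility
opened at most once.

1. Uniform capacities, `⌊(1 + δ) k⌋` facilities: the factor `1 + 2 / δ`.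
2. Uniform capacities: for all solutions `s`, `o` there is a solution that opens at most as many
   facilities as `o`, all of them open in `s`, of cost at most `s.cost + 2 * o.cost`.
3. The order `1 / δ` is right, even on the line with all capacities `2`.
4. On the line with two different capacities, local optima can be arbitrarily bad, for any number
   `r` of extra facilities. -/
theorem result :
    (∀ (I : Inst) (u k : ℕ) (δ η : ℝ) (s o : Sol I), (∀ i, I.U i = u) → 0 < δ → 0 ≤ η → 1 ≤ k →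
      LocOpt ⌊(1 + δ) * k⌋₊ η s → o.size ≤ k → (1 - η * k) * s.cost ≤ (1 + 2 / δ) * o.cost) ∧
    (∀ (I : Inst) (u : ℕ) (s o : Sol I), (∀ i, I.U i = u) →
      ∃ t : Sol I, t.S ⊆ s.S ∧ t.size ≤ o.size ∧ t.cost ≤ s.cost + 2 * o.cost) ∧
    (∀ k r : ℕ, r + 2 ≤ k → ∃ I : Inst, OnLine I ∧ (∀ i, I.U i = 2) ∧ ∃ s o : Sol I,
      LocOpt (k + r) 0 s ∧ o.size = k ∧ 0 < o.cost ∧
      s.cost = ((k : ℝ) - r - 2) / (r + 1) * o.cost) ∧
    (∀ (k r : ℕ) (ρ : ℝ), 2 ≤ k → ∃ I : Inst, OnLine I ∧
      (∀ i, I.U i = 2 * (k - 1) ∨ I.U i = 2 * (k + r)) ∧ ∃ s o : Sol I,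
      LocOpt (k + r) 0 s ∧ o.size = k ∧ 0 < o.cost ∧ ρ * o.cost < s.cost) := by
  refine ⟨?_, ?_, ?_, ?_⟩
  · intro I u k δ η s o hU hδ hη hk hs ho
    exact Pool.Agent.LSC.single hU hδ hη hk s o ⟨hs.1, hs.2.1, hs.2.2⟩ ho
  · intro I u s o hU
    exact Pool.Agent.LSC.restrict hU s o
  · intro k r hk
    obtain ⟨n, rfl⟩ := Nat.exists_eq_add_of_le hk
    obtain ⟨I, h1, h2, s, o, h3, h4, h5, h6, h7⟩ := Pool.Agent.LSC.path_lower n 1 r
    refine ⟨I, h1, h2, s, o, ?_, by omega, ?_, ?_⟩
    · have h8 : r + 2 + n + r = n + 2 * r + 2 := by omega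
      rw [h8]
      exact ⟨h5.1, h5.2, h5.3⟩
    · rw [h7]
      positivity
    · rw [h6, h7]
      push_cast
      field_simp
      ring
  · intro k r ρ hk
    obtain ⟨I, h1, h2, s, o, h3, h4, h5, h6, h7⟩ := Pool.Agent.LSC.knap_lower k r 1 hk
      (by simp) ρ
    exact ⟨I, h1, h2, s, o, ⟨h5.1, h5.2, h5.3⟩, h4, h6, h7⟩

end Pool.Agent.Results.MP_aaf371_lc.SingleSwaps
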